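import Mathlib

set_option autoImplicit false

/-!
# Unit-regular planar point sets: `m(a + b) ≤ m(a) m(b)` and `m(d) ≤ 3^(d/2)`, `2·3^((d-1)/2)`

The Minkowski sum `P + w Q` of an `a`-unit-regular set `P` and a rotated copy `w Q` of a
`b`-unit-regular set `Q` is `(a + b)`-unit-regular for all but finitely many rotations `w`.
-/

namespace Pool.Agent.Results.MP_44bffd_co.ProductBound

open Complex

/-- `P` is `d`-unit-regular: every point of `P` has exactly `d` points of `P` at distance `1`. -/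
def UnitRegular (d : ℕ) (P : Finset ℂ) : Prop :=
  ∀ p ∈ P, (P.filter (fun q => dist p q = 1)).card = d

/-- `m d`: the least size of a (nonempty) finite `d`-unit-regular set in the plane `ℂ`. -/
noncomputable def m (d : ℕ) : ℕ :=
  sInf {k | ∃ P : Finset ℂ, P.Nonempty ∧ P.card = k ∧ UnitRegular d P}

lemma circle_infinite : {w : ℂ | ‖w‖ = 1}.Infinite := by
  have hne : ∀ t : ℝ, (t : ℂ) - I ≠ 0 := by
    intro t h
    have := congrArg Complex.im h
    simp at this
  apply Set.infinite_of_injective_forall_mem (f := fun t : ℝ => ((t : ℂ) + I) / (t - I))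
  · intro t s h
    have h1 : ((t : ℂ) + I) * (s - I) = ((s : ℂ) + I) * (t - I) := by
      have := (div_eq_div_iff (hne t) (hne s)).mp h
      exact this
    have h2 := congrArg Complex.im h1
    simp at h2
    linarith
  · intro t
    simp only [Set.mem_setOf_eq]
    rw [norm_div]
    have h1 : ‖(t : ℂ) + I‖ = ‖(t : ℂ) - I‖ := by
      have : (t : ℂ) - I = (starRingEnd ℂ) ((t : ℂ) + I) := by
        simp [sub_eq_add_neg]
      rw [this, Complex.norm_conj]
    rw [h1]
    exact div_self (by rw [norm_ne_zero_iff]; exact hne t)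

lemma quad_finite (α β γ : ℂ) (h : α ≠ 0) : {w : ℂ | α * w ^ 2 + β * w + γ = 0}.Finite := by
  have hp : (Polynomial.C α * Polynomial.X ^ 2 + Polynomial.C β * Polynomial.X +
      Polynomial.C γ) ≠ 0 := by
    intro h0
    have := congrArg (fun p => Polynomial.coeff p 2) h0
    simp [Polynomial.coeff_X, Polynomial.coeff_C] at this
    exact h this
  refine (Polynomial.finite_setOf_isRoot hp).subset ?_
  intro w hw
  simp only [Set.mem_setOf_eq, Polynomial.IsRoot.def] at hw ⊢
  simp [hw]

lemma bad_finite (a b : ℂ) (ha : a ≠ 0) (hb : b ≠ 0) (K : ℝ) :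
    {w : ℂ | ‖w‖ = 1 ∧ ‖a + w * b‖ ^ 2 = K}.Finite := by
  refine (quad_finite ((starRingEnd ℂ) a * b)
    (a * (starRingEnd ℂ) a + b * (starRingEnd ℂ) b - K) (a * (starRingEnd ℂ) b)
    (mul_ne_zero (by simpa using ha) hb)).subset ?_
  rintro w ⟨hw, hK⟩
  simp only [Set.mem_setOf_eq]
  have h1 : w * (starRingEnd ℂ) w = 1 := by
    rw [Complex.mul_conj, Complex.normSq_eq_norm_sq, hw]; simp
  have h2 : (a + w * b) * (starRingEnd ℂ) (a + w * b) = K := by
    rw [Complex.mul_conj, Complex.normSq_eq_norm_sq, hK]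
  rw [map_add, map_mul] at h2
  linear_combination w * h2 - (a * (starRingEnd ℂ) b + w * b * (starRingEnd ℂ) b) * h1

lemma prod_exists (a b : ℕ) (P Q : Finset ℂ) (hP : UnitRegular a P) (hQ : UnitRegular b Q) :
    ∃ R : Finset ℂ, R.card = P.card * Q.card ∧ UnitRegular (a + b) R := by
  classical
  -- the bad set
  set B : Set ℂ := ⋃ x ∈ (((P ×ˢ P) ×ˢ (Q ×ˢ Q)).filter
    (fun x => x.1.1 ≠ x.1.2 ∧ x.2.1 ≠ x.2.2) : Finset ((ℂ × ℂ) × (ℂ × ℂ))),
    ({w : ℂ | ‖w‖ = 1 ∧ ‖(x.1.1 - x.1.2) + w * (x.2.1 - x.2.2)‖ ^ 2 = 0} ∪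
      {w : ℂ | ‖w‖ = 1 ∧ ‖(x.1.1 - x.1.2) + w * (x.2.1 - x.2.2)‖ ^ 2 = 1}) with hB
  have hBf : B.Finite := by
    apply Set.Finite.biUnion (Finset.finite_toSet _)
    intro x hx
    rw [Finset.mem_coe, Finset.mem_filter] at hx
    exact (bad_finite _ _ (sub_ne_zero.mpr hx.2.1) (sub_ne_zero.mpr hx.2.2) 0).union
      (bad_finite _ _ (sub_ne_zero.mpr hx.2.1) (sub_ne_zero.mpr hx.2.2) 1)
  obtain ⟨w, hw, hwB⟩ := (circle_infinite.diff hBf).nonempty
  simp only [Set.mem_setOf_eq] at hw
  have key : ∀ p ∈ P, ∀ p' ∈ P, ∀ q ∈ Q, ∀ q' ∈ Q, p ≠ p' → q ≠ q' →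
      ‖(p - p') + w * (q - q')‖ ≠ 0 ∧ ‖(p - p') + w * (q - q')‖ ≠ 1 := by
    intro p hp p' hp' q hq q' hq' h1 h2
    constructor
    · intro h0
      apply hwB
      rw [hB, Set.mem_iUnion₂]
      refine ⟨((p, p'), (q, q')), ?_, Or.inl ⟨hw, by simp only; rw [h0]; norm_num⟩⟩
      rw [Finset.mem_filter]
      exact ⟨by simp [hp, hp', hq, hq'], h1, h2⟩
    · intro h0
      apply hwB
      rw [hB, Set.mem_iUnion₂]
      refine ⟨((p, p'), (q, q')), ?_, Or.inr ⟨hw, by simp only; rw [h0]; norm_num⟩⟩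
      rw [Finset.mem_filter]
      exact ⟨by simp [hp, hp', hq, hq'], h1, h2⟩
  have hw0 : w ≠ 0 := by
    intro h; rw [h] at hw; simp at hw
  have hinj : Set.InjOn (fun x : ℂ × ℂ => x.1 + w * x.2) (P ×ˢ Q : Finset (ℂ × ℂ)) := by
    rintro ⟨p, q⟩ hx ⟨p', q'⟩ hx' h
    rw [Finset.mem_coe, Finset.mem_product] at hx hx'
    simp only at h hx hx'
    by_cases h1 : p = p'
    · subst h1
      have : q = q' := by
        have h3 : w * q = w * q' := add_left_cancel h
        exact mul_left_cancel₀ hw0 h3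
      rw [this]
    · by_cases h2 : q = q'
      · subst h2
        exact absurd (add_right_cancel h) h1
      · exfalso
        apply (key p hx.1 p' hx'.1 q hx.2 q' hx'.2 h1 h2).1
        have : (p - p') + w * (q - q') = 0 := by linear_combination h
        rw [this, norm_zero]
  refine ⟨(P ×ˢ Q).image (fun x => x.1 + w * x.2), ?_, ?_⟩
  · rw [Finset.card_image_of_injOn hinj, Finset.card_product]
  · intro r hr
    rw [Finset.mem_image] at hr
    obtain ⟨⟨p, q⟩, hx, rfl⟩ := hr
    rw [Finset.mem_product] at hx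
    simp only at hx ⊢
    rw [Finset.filter_image, Finset.card_image_of_injOn]
    · have heq : (P ×ˢ Q).filter (fun x : ℂ × ℂ => dist (p + w * q) (x.1 + w * x.2) = 1) =
          ((P.filter (fun p' => dist p p' = 1)) ×ˢ {q}) ∪
          ({p} ×ˢ (Q.filter (fun q' => dist q q' = 1))) := by
        ext ⟨p', q'⟩
        simp only [Finset.mem_filter, Finset.mem_product, Finset.mem_union,
          Finset.mem_singleton]
        have hd : dist (p + w * q) (p' + w * q') = ‖(p - p') + w * (q - q')‖ := by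
          rw [dist_eq_norm]; congr 1; ring
        rw [hd]
        constructor
        · rintro ⟨⟨h1, h2⟩, h3⟩
          by_cases e1 : p = p'
          · right
            subst e1
            refine ⟨rfl, h2, ?_⟩
            rw [sub_self, zero_add, norm_mul, hw, one_mul] at h3
            rw [dist_eq_norm]; exact h3
          · by_cases e2 : q = q'
            · left
              subst e2
              refine ⟨⟨h1, ?_⟩, rfl⟩
              rw [sub_self, mul_zero, add_zero] at h3
              rw [dist_eq_norm]; exact h3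
            · exact absurd h3 (key p hx.1 p' h1 q hx.2 q' h2 e1 e2).2
        · rintro (⟨⟨h1, h2⟩, rfl⟩ | ⟨rfl, h1, h2⟩)
          · refine ⟨⟨h1, hx.2⟩, ?_⟩
            rw [sub_self, mul_zero, add_zero, ← dist_eq_norm]; exact h2
          · refine ⟨⟨hx.1, h1⟩, ?_⟩
            rw [sub_self, zero_add, norm_mul, hw, one_mul, ← dist_eq_norm]; exact h2
      have hdisj : Disjoint ((P.filter (fun p' => dist p p' = 1)) ×ˢ ({q} : Finset ℂ))
          (({p} : Finset ℂ) ×ˢ (Q.filter (fun q' => dist q q' = 1))) := by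
        rw [Finset.disjoint_left]
        rintro ⟨p', q'⟩ h1 h2
        rw [Finset.mem_product, Finset.mem_filter] at h1
        rw [Finset.mem_product, Finset.mem_singleton] at h2
        simp only at h1 h2
        have := h1.1.2
        rw [h2.1, dist_self] at this
        norm_num at this
      have h4 := hP p hx.1
      have h5 := hQ q hx.2
      rw [heq, Finset.card_union_of_disjoint hdisj, Finset.card_product, Finset.card_product,
        h4, h5]
      simp
    · intro x hx' y hy' h
      rw [Finset.mem_coe, Finset.mem_filter] at hx' hy'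
      exact hinj hx'.1 hy'.1 h


lemma pair_reg : UnitRegular 1 ({0, 1} : Finset ℂ) := by
  intro p hp
  simp only [Finset.mem_insert, Finset.mem_singleton] at hp
  rcases hp with rfl | rfl
  · rw [Finset.filter_insert, Finset.filter_singleton, if_neg (by simp), if_pos (by simp)]
    simp
  · rw [Finset.filter_insert, Finset.filter_singleton, if_pos (by simp), if_neg (by simp)]
    simp

lemma zero_reg : UnitRegular 0 ({0} : Finset ℂ) := by
  intro p hp
  rw [Finset.mem_singleton] at hp
  subst hp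
  rw [Finset.filter_singleton, if_neg (by simp)]
  simp

lemma tri_reg (x y z : ℂ) (hxy : dist x y = 1) (hyz : dist y z = 1) (hxz : dist x z = 1) :
    ({x, y, z} : Finset ℂ).card = 3 ∧ UnitRegular 2 ({x, y, z} : Finset ℂ) := by
  have h1 : x ≠ y := by intro h; rw [h, dist_self] at hxy; norm_num at hxy
  have h2 : y ≠ z := by intro h; rw [h, dist_self] at hyz; norm_num at hyz
  have h3 : x ≠ z := by intro h; rw [h, dist_self] at hxz; norm_num at hxz
  have hyx : dist y x = 1 := by rw [dist_comm]; exact hxy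
  have hzy : dist z y = 1 := by rw [dist_comm]; exact hyz
  have hzx : dist z x = 1 := by rw [dist_comm]; exact hxz
  constructor
  · rw [Finset.card_insert_of_notMem, Finset.card_insert_of_notMem, Finset.card_singleton]
    · simpa using h2
    · simp [h1, h3]
  · intro p hp
    simp only [Finset.mem_insert, Finset.mem_singleton] at hp
    rcases hp with rfl | rfl | rfl
    · rw [Finset.filter_insert, Finset.filter_insert, Finset.filter_singleton,
        if_neg (by simp), if_pos hxy, if_pos hxz, Finset.card_insert_of_notMem,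
        Finset.card_singleton]
      simpa using h2
    · rw [Finset.filter_insert, Finset.filter_insert, Finset.filter_singleton,
        if_pos hyx, if_neg (by simp), if_pos hyz, Finset.card_insert_of_notMem,
        Finset.card_singleton]
      simpa using h3
    · rw [Finset.filter_insert, Finset.filter_insert, Finset.filter_singleton,
        if_pos hzx, if_pos hzy, if_neg (by simp), Finset.card_insert_of_notMem]
      · simp
      · simpa using h1

lemma exists_tri : ∃ P : Finset ℂ, P.card = 3 ∧ UnitRegular 2 P := by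
  have hs : Real.sqrt 3 ^ 2 = 3 := Real.sq_sqrt (by norm_num)
  refine ⟨{0, 1, ⟨1 / 2, Real.sqrt 3 / 2⟩}, ?_⟩
  apply tri_reg
  · simp
  · rw [Complex.dist_eq_re_im]
    simp only [Complex.one_re, Complex.one_im]
    rw [Real.sqrt_eq_one]
    nlinarith
  · rw [Complex.dist_eq_re_im]
    simp only [Complex.zero_re, Complex.zero_im]
    rw [Real.sqrt_eq_one]
    nlinarith

lemma exists_reg (d : ℕ) : ∃ P : Finset ℂ, P.Nonempty ∧ UnitRegular d P := by
  induction d with
  | zero => exact ⟨{0}, by simp, zero_reg⟩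
  | succ d ih =>
    obtain ⟨P, hP, hPr⟩ := ih
    obtain ⟨R, hR, hRr⟩ := prod_exists d 1 P {0, 1} hPr pair_reg
    refine ⟨R, ?_, hRr⟩
    rw [← Finset.card_pos, hR]
    have : 0 < P.card := Finset.card_pos.mpr hP
    have h2 : 0 < ({0, 1} : Finset ℂ).card := Finset.card_pos.mpr (by simp)
    positivity

lemma m_spec (d : ℕ) : ∃ P : Finset ℂ, P.Nonempty ∧ P.card = m d ∧ UnitRegular d P := by
  obtain ⟨P, hP, hPr⟩ := exists_reg d
  exact Nat.sInf_mem (s := {k | ∃ P : Finset ℂ, P.Nonempty ∧ P.card = k ∧ UnitRegular d P})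
    ⟨P.card, P, hP, rfl, hPr⟩

lemma m_le (d : ℕ) (P : Finset ℂ) (hP : P.Nonempty) (hPr : UnitRegular d P) : m d ≤ P.card :=
  Nat.sInf_le ⟨P, hP, rfl, hPr⟩

theorem m_add (a b : ℕ) : m (a + b) ≤ m a * m b := by
  obtain ⟨P, hP, hPc, hPr⟩ := m_spec a
  obtain ⟨Q, hQ, hQc, hQr⟩ := m_spec b
  obtain ⟨R, hR, hRr⟩ := prod_exists a b P Q hPr hQr
  rw [← hPc, ← hQc, ← hR]
  apply m_le _ _ _ hRr
  rw [← Finset.card_pos, hR]
  have h1 : 0 < P.card := Finset.card_pos.mpr hP
  have h2 : 0 < Q.card := Finset.card_pos.mpr hQ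
  positivity

lemma m_zero : m 0 ≤ 1 := by
  have := m_le 0 {0} (by simp) zero_reg
  simpa using this

lemma m_one : m 1 ≤ 2 := by
  have := m_le 1 {0, 1} (by simp) pair_reg
  refine this.trans ?_
  exact Finset.card_le_two

lemma m_two : m 2 ≤ 3 := by
  obtain ⟨P, hP, hPr⟩ := exists_tri
  have := m_le 2 P (by rw [← Finset.card_pos, hP]; norm_num) hPr
  omega

theorem m_even (k : ℕ) : m (2 * k) ≤ 3 ^ k := by
  induction k with
  | zero => simpa using m_zero
  | succ k ih =>
    have h := m_add (2 * k) 2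
    rw [show 2 * (k + 1) = 2 * k + 2 by ring, pow_succ]
    exact h.trans (Nat.mul_le_mul ih m_two)

theorem m_odd (k : ℕ) : m (2 * k + 1) ≤ 2 * 3 ^ k := by
  have h := m_add (2 * k) 1
  rw [mul_comm 2 (3 ^ k)]
  exact h.trans (Nat.mul_le_mul (m_even k) m_one)

/-- `m` is submultiplicative, `m(2k) ≤ 3^k` and `m(2k+1) ≤ 2·3^k`. -/
theorem result :
    (∀ a b : ℕ, m (a + b) ≤ m a * m b) ∧ (∀ k : ℕ, m (2 * k) ≤ 3 ^ k) ∧
    (∀ k : ℕ, m (2 * k + 1) ≤ 2 * 3 ^ k) :=
  ⟨m_add, m_even, m_odd⟩

end Pool.Agent.Results.MP_44bffd_co.ProductBound
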